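import Mathlib
import Pool.Agent.H9Aff.Main

set_option autoImplicit false

namespace Pool.Agent.Results.MP_27f3b7_al.OrderIsCycleLength

/-- Q1 (affirmative).  Let `G` be a finite nilpotent group and let `A` be an affine map of `G`,
`A x = t * α x` with `α ∈ Aut G`, `t ∈ G`.  The order of `A` in `Sym(G)` is the greatest cycle
length of `A` on `G`: it is the length of the cycle of some point, and no cycle is longer.
(`Function.minimalPeriod A x` is the length of the cycle of `A` through `x`.) -/
theorem result {G : Type*} [Group G] [Finite G] [Group.IsNilpotent G] (α : G ≃* G) (t : G)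
    (A : Equiv.Perm G) (hA : ∀ x, A x = t * α x) :
    IsGreatest (Set.range fun x : G => Function.minimalPeriod A x) (orderOf A) := by
  constructor
  · obtain ⟨x, hx⟩ := H9.Aff.nilpotent_main A (H9.Aff.affine_isHeap α t A hA)
    exact ⟨x, hx⟩
  · rintro _ ⟨x, rfl⟩
    apply Nat.le_of_dvd (orderOf_pos A)
    apply Function.IsPeriodicPt.minimalPeriod_dvd
    change (A : G → G)^[orderOf A] x = x
    rw [Equiv.Perm.iterate_eq_pow, pow_orderOf_eq_one]
    rfl

end Pool.Agent.Results.MP_27f3b7_al.OrderIsCycleLength
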